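import Pool.Agent.Helper91.FS.Goals2

/-!
# Project FS (MP_0130f7_co), packet MD: levels with the two weights `k` and `2 k`
-/

set_option autoImplicit false

namespace Pool.Agent.Helper61.FS

open Finset
open Pool.Agent.Helper47.SR (Grp mv lev wt Ew W IsInv up dn StarAt HalfStarAt)
open Pool.Agent.Helper49.NF
open Pool.Agent.Helper91.FS

/-- the real inequality of the main case -/
theorem md_num (n D k k' m1 q US VD VS VY WS WY E E' y c WU WD : ℝ)
    (hk : 1 ≤ k) (hk' : 1 ≤ k') (hm1 : 0 < m1) (hD : 0 < D) (hD2 : D ≤ 2 * n)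
    (hE : 0 ≤ E) (hE' : 0 ≤ E') (hc : 0 < c) (hy : 0 ≤ n ^ 2 * y)
    (hq : q ≤ n ^ 2) (hPq : 2 * k * m1 * n ≤ k' * q)
    (hsm : 2 * c * (k' * n ^ 2 * E + 2 * k * m1 * n * E') ≤ n ^ 2 * y)
    (hU : k' * US ≤ WU) (hDn : WD ≤ k' * VD + E')
    (ha : q * VS ≤ m1 * D * US)
    (hb : c * (m1 * D * VD) + n ^ 2 * y ≤ c * (q * VY))
    (hS : WS ≤ k * VS + E) (hY : k * VY ≤ WY) (hlt : WY ≤ WS) :
    WD + WS ≤ WU + WY := by
  have hk0 : 0 < k := by linarith
  have hk'0 : 0 < k' := by linarith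
  obtain ⟨P, hP⟩ : ∃ P, P = m1 * D * k := ⟨_, rfl⟩
  have hP0 : 0 < P := by rw [hP]; positivity
  have hP2 : P ≤ 2 * k * m1 * n := by
    have h1 : 0 ≤ (m1 * k) * (2 * n - D) := mul_nonneg (by positivity) (by linarith)
    rw [hP]
    nlinarith
  have hPq' : P ≤ k' * q := hP2.trans hPq
  -- the up side
  have s1 : P * (k' * US) ≤ P * WU := mul_le_mul_of_nonneg_left hU hP0.le
  have s2 : P * WD ≤ P * (k' * VD + E') := mul_le_mul_of_nonneg_left hDn hP0.le
  have s3 : (k * k') * (q * VS) ≤ (k * k') * (m1 * D * US) :=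
    mul_le_mul_of_nonneg_left ha (by positivity)
  have s4 : (k * k') * (c * (m1 * D * VD) + n ^ 2 * y) ≤ (k * k') * (c * (q * VY)) :=
    mul_le_mul_of_nonneg_left hb (by positivity)
  have s5 : 0 ≤ (k' * q - P) * (WS - WY) := mul_nonneg (by linarith) (by linarith)
  have hq0 : 0 ≤ k' * q := hP0.le.trans hPq'
  have s6 : (k' * q) * WS ≤ (k' * q) * (k * VS + E) := mul_le_mul_of_nonneg_left hS hq0
  have s7 : (k' * q) * (k * VY) ≤ (k' * q) * WY := mul_le_mul_of_nonneg_left hY hq0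
  have s8 : (k' * E) * q ≤ (k' * E) * n ^ 2 := mul_le_mul_of_nonneg_left hq (by positivity)
  have s9 : P * E' ≤ (2 * k * m1 * n) * E' := mul_le_mul_of_nonneg_right hP2 hE'
  have s10 : n ^ 2 * y ≤ (k * k') * (n ^ 2 * y) := by
    have h1 : 1 ≤ k * k' := by nlinarith
    have h2 : 0 ≤ (k * k' - 1) * (n ^ 2 * y) := mul_nonneg (by linarith) hy
    nlinarith
  have e1 : P * (k' * US) = (k * k') * (m1 * D * US) := by rw [hP]; ring
  have e2 : c * (P * (k' * VD + E')) = (k * k') * (c * (m1 * D * VD)) + c * (P * E') := by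
    rw [hP]; ring
  have s2c : c * (P * WD) ≤ c * (P * (k' * VD + E')) := mul_le_mul_of_nonneg_left s2 hc.le
  have s1c : c * ((k * k') * (q * VS)) ≤ c * (P * WU) :=
    mul_le_mul_of_nonneg_left (s3.trans (e1 ▸ s1)) hc.le
  have s5c : 0 ≤ c * ((k' * q - P) * (WS - WY)) := mul_nonneg hc.le s5
  have s6c := mul_le_mul_of_nonneg_left s6 hc.le
  have s7c := mul_le_mul_of_nonneg_left s7 hc.le
  have s8c := mul_le_mul_of_nonneg_left s8 hc.le
  have s9c := mul_le_mul_of_nonneg_left s9 hc.le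
  have hfin : (c * P) * (WD + WS) ≤ (c * P) * (WU + WY) := by
    have : c * (P * WD) ≤ (k * k') * (c * (m1 * D * VD)) + c * (P * E') := e2 ▸ s2c
    have h3 : 0 ≤ n ^ 2 * y := hy
    nlinarith
  exact le_of_mul_le_mul_left hfin (by positivity)


/-- the cardinality of a level -/
theorem md_lev (n m : ℕ) : #(lev n m) = n.choose m := by
  rw [card_powersetCard, card_univ, Fintype.card_fin]

theorem md_nonempty {n m : ℕ} (h : m ≤ n) : ∃ A, A ∈ lev n m := by
  have h1 : 0 < #(lev n m) := by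
    rw [md_lev]
    exact Nat.choose_pos h
  obtain ⟨A, hA⟩ := card_pos.1 h1
  exact ⟨A, hA⟩

/-- upper bounds for the sum over a subfamily from an upper bound for the whole sum -/
theorem md_upper {α : Type} [DecidableEq α] (L F : Finset α) (hF : F ⊆ L) (f g : α → ℕ) (E : ℕ)
    (hfg : ∀ a ∈ L, g a ≤ f a) (hL : ∑ a ∈ L, f a ≤ ∑ a ∈ L, g a + E) :
    ∑ a ∈ F, f a ≤ ∑ a ∈ F, g a + E := by
  have h1 := sum_sdiff hF (f := f)
  have h2 := sum_sdiff hF (f := g)
  have h3 : ∑ a ∈ L \ F, g a ≤ ∑ a ∈ L \ F, f a :=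
    sum_le_sum fun a ha => hfg a (mem_sdiff.1 ha).1
  omega

/-- PACKET MD -/
theorem goal_MD (hSYM : Pool.Agent.Helper47.SR.Goal_SYM) (hCLS : Pool.Agent.Helper49.NF.Goal_CLS)
    (hMDA : Goal_MDA) (hMDS : Goal_MDS) (hN0D : Goal_N0D) : Goal_MD := by
  classical
  intro l
  obtain ⟨n₁, hMDS⟩ := hMDS l
  obtain ⟨n₂, hN0D⟩ := hN0D (l + 1) (by omega)
  refine ⟨n₁ + n₂ + l + 2, ?_⟩
  intro n hn s k k' E E' d w G hs hsn hw1 hw2 hdes hk hkw hWup hAU hE hE'
  have hn1 : n₁ ≤ n := by omega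
  have hn2 : n₂ ≤ n := by omega
  have hnl : l + 2 ≤ n := by omega
  have hk'1 := hAU.k1
  have hks : k ≤ s := by
    obtain ⟨A, hA⟩ := md_nonempty (n := n) (m := l + 1) (by omega)
    calc k = k * 1 := (mul_one k).symm
      _ ≤ k * (1 + w A) := Nat.mul_le_mul_left _ (by omega)
      _ ≤ 1 + wt G A := hkw A hA
      _ ≤ s := hw1 A hA
  have hk's : k' ≤ s := by
    obtain ⟨A, hA⟩ := md_nonempty (n := n) (m := l + 2) (by omega)
    exact (hAU.lb A hA).trans (hw2 A hA)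
  obtain ⟨c1, c2, c3, c4, c5, c6, c7⟩ := hN0D n hn2 s k k' E E' hs hsn hks hk'1 hk's hE hE'
  have hd : d ≤ n - l := by
    obtain ⟨T, hT⟩ := md_nonempty (n := n) (m := l) (by omega)
    rw [← hdes.2 T hT]
    refine (sum_le_sum fun x _ => hdes.1 (insert x T)).trans ?_
    rw [sum_const, smul_eq_mul, mul_one, card_sdiff_of_subset (subset_univ _), card_univ,
      Fintype.card_fin, (mem_powersetCard.1 hT).2]
  -- the weights of families
  have f1 : ∀ F ⊆ lev n (l + 1), k * ∑ A ∈ F, (1 + w A) ≤ W G F := by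
    intro F hF
    rw [mul_sum]
    exact sum_le_sum fun A hA => hkw A (hF hA)
  have f2 : ∀ F ⊆ lev n (l + 1), W G F ≤ k * ∑ A ∈ F, (1 + w A) + E := by
    intro F hF
    rw [mul_sum]
    refine md_upper (lev n (l + 1)) F hF (fun A => 1 + wt G A) (fun A => k * (1 + w A)) E hkw ?_
    rw [← mul_sum]
    exact hWup
  have f3 : ∀ F ⊆ lev n (l + 2), k' * #F ≤ W G F := by
    intro F hF
    calc k' * #F = ∑ A ∈ F, k' := by rw [sum_const, smul_eq_mul, mul_comm]
      _ ≤ _ := sum_le_sum fun A hA => hAU.lb A (hF hA)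
  have f4 : ∀ F ⊆ lev n (l + 2), W G F ≤ k' * #F + E' := by
    intro F hF
    have h1 : k' * #F = ∑ A ∈ F, k' := by rw [sum_const, smul_eq_mul, mul_comm]
    rw [h1]
    refine md_upper (lev n (l + 2)) F hF (fun A => 1 + wt G A) (fun _ => k') E' hAU.lb ?_
    have h2 := hAU.ex
    rw [sum_const, smul_eq_mul, md_lev, mul_comm]
    exact h2
  refine hSYM n G (l + 1) ?_
  intro S Y hS hY hSi hYi hhalf hlt
  change Sat G (l + 1) S Y
  have hFam : Fam G (l + 1) S Y := ⟨hS, hY, hSi, hYi, hlt⟩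
  by_cases hcase : (n / (4 * s ^ 2)).choose (l + 1) ≤ #Y
  · -- the main case
    have hYh : 20 * ∑ A ∈ Y, (1 + w A) ≤ 10 * ∑ A ∈ lev n (l + 1), (1 + w A) + n.choose (l + 1) := by
      have h1 := f1 Y hY
      have h3 : k * (20 * ∑ A ∈ Y, (1 + w A)) ≤
          k * (10 * ∑ A ∈ lev n (l + 1), (1 + w A) + n.choose (l + 1)) := by
        have h4 : n.choose (l + 1) ≤ k * n.choose (l + 1) := Nat.le_mul_of_pos_left _ hk
        generalize ∑ A ∈ Y, (1 + w A) = a at *
        generalize ∑ A ∈ lev n (l + 1), (1 + w A) = b at *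
        have h5 : k * (20 * a) = 20 * (k * a) := by ring
        have h6 : k * (10 * b + n.choose (l + 1)) = 10 * (k * b) + k * n.choose (l + 1) := by ring
        rw [h5, h6]
        omega
      exact le_of_mul_le_mul_left h3 hk
    have hb := hMDS n hn1 d w hdes Y hY hYh
    have ha := (hMDA n l d w hnl hdes S hS).1
    have hup : up (l + 1) S ⊆ lev n (l + 2) := filter_subset _ _
    have hdn : dn (l + 1) Y ⊆ lev n (l + 2) := filter_subset _ _
    have u1 := f3 _ hup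
    have u2 := f4 _ hdn
    have u3 := f2 S hS
    have u4 := f1 Y hY
    have hD : n - l + d ≤ 2 * n := by omega
    have hD0 : 0 < n - l + d := by omega
    have hq : (n - (l + 1)) * (n - l) ≤ n ^ 2 := by
      rw [pow_two]
      exact Nat.mul_le_mul (Nat.sub_le _ _) (Nat.sub_le _ _)
    have hPq : 2 * k * (l + 2) * n ≤ k' * ((n - (l + 1)) * (n - l)) := by
      have h1 : n - (l + 1 - 1) = n - l := by omega
      rw [h1] at c3
      calc 2 * k * (l + 2) * n = 2 * k * (l + 1 + 1) * n := by ring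
        _ ≤ _ := c3
        _ = _ := by ring
    have hsm : 2 * (200 * (l + 1) ^ 3) * (k' * n ^ 2 * E + 2 * k * (l + 2) * n * E') ≤
        n ^ 2 * #Y := by
      calc 2 * (200 * (l + 1) ^ 3) * (k' * n ^ 2 * E + 2 * k * (l + 2) * n * E')
          = 400 * (l + 1) ^ 3 * (k' * n ^ 2 * E + 2 * k * (l + 1 + 1) * n * E') := by ring
        _ ≤ _ := c1
        _ ≤ _ := Nat.mul_le_mul_left _ hcase
    have main := md_num (n : ℝ) ((n - l + d : ℕ) : ℝ) (k : ℝ) (k' : ℝ) ((l + 2 : ℕ) : ℝ)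
      (((n - (l + 1)) * (n - l) : ℕ) : ℝ) (#(up (l + 1) S) : ℝ) (#(dn (l + 1) Y) : ℝ)
      ((∑ A ∈ S, (1 + w A) : ℕ) : ℝ) ((∑ A ∈ Y, (1 + w A) : ℕ) : ℝ) (W G S : ℝ) (W G Y : ℝ)
      (E : ℝ) (E' : ℝ) (#Y : ℝ) ((200 * (l + 1) ^ 3 : ℕ) : ℝ) (W G (up (l + 1) S) : ℝ)
      (W G (dn (l + 1) Y) : ℝ)
      (by exact_mod_cast hk) (by exact_mod_cast hk'1) (by positivity)
      (by exact_mod_cast hD0) (by exact_mod_cast hD) (by positivity) (by positivity)
      (by positivity) (by positivity) (by exact_mod_cast hq) (by exact_mod_cast hPq)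
      (by exact_mod_cast hsm) (by exact_mod_cast u1) (by exact_mod_cast u2)
      (by exact_mod_cast ha) (by exact_mod_cast hb) (by exact_mod_cast u3)
      (by exact_mod_cast u4) (by exact_mod_cast hlt.le)
    unfold Sat
    exact_mod_cast main
  · -- the closing case
    have h1 : #Y < (n / (4 * s ^ 2)).choose (l + 1) := not_le.1 hcase
    have hNn : ∀ j, (∀ A ∈ lev n j, 1 + wt G A ≤ s) → Nn G j (s + 1) = 0 := by
      intro j h
      unfold Nn
      refine sum_eq_zero fun A hA => ?_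
      rw [mem_filter] at hA
      have := h A hA.1
      omega
    have e1 : Nn G (l + 1) (s + 1) = 0 := hNn _ hw1
    have e2 : Nn G (l + 1 + 1) (s + 1) = 0 := hNn _ hw2
    refine hCLS n (l + 1) s (n / (4 * s ^ 2) - (l + 1)) (l + 1) G S Y (by omega) c7 hs hFam
      ?_ ?_ ?_ ?_ ?_ ?_
    · have h2 : n - (l + 1) + (l + 1) = n := by omega
      rw [h2, Nat.choose_symm (by omega), ← md_lev]
      exact card_le_card hS
    · have h2 : l + 1 + (n / (4 * s ^ 2) - (l + 1)) = n / (4 * s ^ 2) := by omega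
      rw [h2]
      exact h1.le
    · rw [e1]
      exact Nat.zero_le _
    · rw [e2]
      exact Nat.zero_le _
    · generalize n / (4 * s ^ 2) = z at *
      have h2 : s * (z - (l + 1)) ≤ s * z := Nat.mul_le_mul_left _ (Nat.sub_le _ _)
      calc 64 * (s * (l + 1 + 1) * (s * (z - (l + 1)))) + s * (l + 1 + 1) * (l + 1 + 1)
          ≤ 64 * (s * (l + 1 + 1) * (s * z)) + s * (l + 1 + 1) * (l + 1 + 1) :=
            Nat.add_le_add_right (Nat.mul_le_mul_left _ (Nat.mul_le_mul_left _ h2)) _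
        _ = (64 * s ^ 2 * z + s * (l + 1 + 1)) * (l + 1 + 1) := by ring
        _ ≤ (63 * (n - (l + 1))) * (l + 1 + 1) := Nat.mul_le_mul_right _ c5
        _ = 63 * ((n - (l + 1)) * (l + 1 + 1)) := by ring
    · calc 65 * (s * (l + 1 + 1) * (l + 1 + 1)) = (65 * (s * (l + 1 + 1))) * (l + 1 + 1) := by ring
        _ ≤ (63 * (n - (l + 1))) * (l + 1 + 1) := Nat.mul_le_mul_right _ c6
        _ = 63 * ((n - (l + 1)) * (l + 1 + 1)) := by ring

end Pool.Agent.Helper61.FS
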